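import Pool.Agent.H24.CL.Targets

/-!
# The orbit inequality for the good points (row OI of helper24)
-/

set_option autoImplicit false

open Finset MeasureTheory

namespace Pool.Agent.H74.CLV

open Pool.Agent.H24.CL

/-- superadditivity of the positive part -/
lemma pos_sum {ι : Type*} (s : Finset ι) (g : ι → ℝ) (hg : ∀ i ∈ s, 0 ≤ g i) :
    ∑ i ∈ s, max (g i - 1 / 2) 0 ≤ max (∑ i ∈ s, g i - 1 / 2) 0 := by
  classical
  induction s using Finset.induction_on with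
  | empty => simp
  | insert a s ha ih =>
    rw [Finset.sum_insert ha, Finset.sum_insert ha]
    have h1 := ih (fun i hi => hg i (Finset.mem_insert_of_mem hi))
    have h2 : 0 ≤ g a := hg a (Finset.mem_insert_self _ _)
    have h3 : 0 ≤ ∑ i ∈ s, g i :=
      Finset.sum_nonneg fun i hi => hg i (Finset.mem_insert_of_mem hi)
    have h4 : max (g a - 1 / 2) 0 + max (∑ i ∈ s, g i - 1 / 2) 0 ≤
        max (g a + ∑ i ∈ s, g i - 1 / 2) 0 := by
      rcases le_total (g a - 1 / 2) 0 with h5 | h5 <;>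
      rcases le_total (∑ i ∈ s, g i - 1 / 2) 0 with h6 | h6
      · rw [max_eq_right h5, max_eq_right h6]
        simp
      · rw [max_eq_right h5, max_eq_left h6]
        refine le_trans ?_ (le_max_left _ _)
        linarith
      · rw [max_eq_left h5, max_eq_right h6]
        refine le_trans ?_ (le_max_left _ _)
        linarith
      · rw [max_eq_left h5, max_eq_left h6]
        refine le_trans ?_ (le_max_left _ _)
        linarith
    linarith

/-- convexity of the positive part -/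
lemma conv_pos (q : ℕ) (hq : 0 < q) (z : ℕ → ℝ) :
    max ((1 / (q : ℝ)) * ∑ b ∈ range q, z b - 1 / 2) 0 ≤
      (1 / (q : ℝ)) * ∑ b ∈ range q, max (z b - 1 / 2) 0 := by
  have hq' : (0 : ℝ) < q := by exact_mod_cast hq
  refine max_le ?_ ?_
  · have h1 : (1 / (q : ℝ)) * ∑ b ∈ range q, z b - 1 / 2 =
        (1 / (q : ℝ)) * ∑ b ∈ range q, (z b - 1 / 2) := by
      rw [Finset.sum_sub_distrib, Finset.sum_const, Finset.card_range, nsmul_eq_mul]
      field_simp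
    rw [h1]
    refine mul_le_mul_of_nonneg_left ?_ (by positivity)
    exact Finset.sum_le_sum fun b _ => le_max_left _ _
  · exact mul_nonneg (by positivity) (Finset.sum_nonneg fun b _ => le_max_right _ _)

/-- the estimate on one line -/
lemma line_core {ι : Type} (hBO : T_BO) (q : ℕ) (hq : 0 < q) (M R W c η : ℝ)
    (hM : 0 < M) (hW : 0 ≤ W) (hc0 : 0 ≤ c) (hη0 : 0 ≤ η) (hη1 : η ≤ 1 / 4)
    (Y : Finset ι) (B : Finset ℕ) (hB : B ⊆ range q) (hc : ((range q \ B).card : ℝ) ≤ c)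
    (hYR : (Y.card : ℝ) ≤ R)
    (x : ℕ → ℂ) (ph : ι → ℕ → ℂ) (hph : ∀ h b, ‖ph h b‖ = 1) (v : ι → ℂ)
    (hv : ∀ h ∈ Y, v h = (1 / (q : ℂ)) * ∑ b ∈ range q, ph h b * x b)
    (hx : ∀ b < q, M * ‖x b‖ ^ 2 ≤ (q : ℝ) ^ (3 / 2 : ℝ))
    (hlow : ∀ h ∈ Y, 1 / 2 ≤ M * ‖v h‖ ^ 2)
    (hcross : ∀ h ∈ Y, ∀ h' ∈ Y, h ≠ h' →
      ‖∑ b ∈ range q, ph h b * (starRingEnd ℂ) (ph h' b)‖ ≤ W)
    (hη : 2 * c * (q : ℝ) ^ (-(1 / 4) : ℝ) ≤ η) :
    ∑ h ∈ Y, M * ‖v h‖ ^ 2 ≤
      (1 + 4 * η) * (((q : ℝ) + R * (W + c)) / q) *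
        ((1 / (q : ℝ)) * ∑ b ∈ B, M * ‖x b‖ ^ 2) := by
  classical
  have hq' : (0 : ℝ) < q := by exact_mod_cast hq
  set sM := Real.sqrt M with hsM
  have hsM0 : 0 < sM := Real.sqrt_pos.mpr hM
  have hsM2 : sM ^ 2 = M := Real.sq_sqrt hM.le
  -- the pointwise bound for x
  have hx' : ∀ b < q, sM * ‖x b‖ ≤ (q : ℝ) ^ (3 / 4 : ℝ) := by
    intro b hb
    have h1 : (sM * ‖x b‖) ^ 2 ≤ ((q : ℝ) ^ (3 / 4 : ℝ)) ^ 2 := by
      rw [mul_pow, hsM2, ← Real.rpow_natCast ((q : ℝ) ^ (3 / 4 : ℝ)) 2,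
        ← Real.rpow_mul hq'.le]
      refine (hx b hb).trans (le_of_eq ?_)
      norm_num
    exact (pow_le_pow_iff_left₀ (by positivity) (by positivity) two_ne_zero).mp h1
  have hlow' : ∀ h ∈ Y, 1 / 2 ≤ sM * ‖v h‖ := by
    intro h hh
    have h1 : (1 / 2 : ℝ) ^ 2 ≤ (sM * ‖v h‖) ^ 2 := by
      rw [mul_pow, hsM2]
      have := hlow h hh
      norm_num at this ⊢
      linarith
    exact (pow_le_pow_iff_left₀ (by positivity) (by positivity) two_ne_zero).mp h1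
  -- the main part
  set U : ι → ℂ := fun h => (1 / (q : ℂ)) * ∑ b ∈ B, x b * ph h b with hU
  have hvU : ∀ h ∈ Y, ‖v h‖ ^ 2 ≤ (1 + 4 * η) * ‖U h‖ ^ 2 := by
    intro h hh
    have hsplit : v h = U h + (1 / (q : ℂ)) * ∑ b ∈ range q \ B, ph h b * x b := by
      rw [hv h hh, hU, ← Finset.sum_sdiff hB, mul_add, add_comm]
      congr 2
      exact Finset.sum_congr rfl fun b _ => mul_comm _ _
    have hrem : sM * ‖(1 / (q : ℂ)) * ∑ b ∈ range q \ B, ph h b * x b‖ ≤ η / 2 := by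
      have h1 : sM * ‖∑ b ∈ range q \ B, ph h b * x b‖ ≤ c * (q : ℝ) ^ (3 / 4 : ℝ) := by
        calc sM * ‖∑ b ∈ range q \ B, ph h b * x b‖
            ≤ sM * ∑ b ∈ range q \ B, ‖ph h b * x b‖ :=
              mul_le_mul_of_nonneg_left (norm_sum_le _ _) hsM0.le
          _ = ∑ b ∈ range q \ B, sM * ‖x b‖ := by
              rw [Finset.mul_sum]
              refine Finset.sum_congr rfl fun b _ => ?_
              rw [norm_mul, hph, one_mul]
          _ ≤ ∑ b ∈ range q \ B, (q : ℝ) ^ (3 / 4 : ℝ) :=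
              Finset.sum_le_sum fun b hb =>
                hx' b (Finset.mem_range.mp (Finset.mem_sdiff.mp hb).1)
          _ = ((range q \ B).card : ℝ) * (q : ℝ) ^ (3 / 4 : ℝ) := by
              rw [Finset.sum_const, nsmul_eq_mul]
          _ ≤ c * (q : ℝ) ^ (3 / 4 : ℝ) := mul_le_mul_of_nonneg_right hc (by positivity)
      have h2 : ‖(1 / (q : ℂ)) * ∑ b ∈ range q \ B, ph h b * x b‖ =
          (1 / (q : ℝ)) * ‖∑ b ∈ range q \ B, ph h b * x b‖ := by
        rw [norm_mul, norm_div, norm_one, Complex.norm_natCast]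
      have h3 : (q : ℝ) ^ (3 / 4 : ℝ) / q = (q : ℝ) ^ (-(1 / 4) : ℝ) := by
        conv_lhs => rw [← Real.rpow_one (q : ℝ)]
        rw [← Real.rpow_mul hq'.le, ← Real.rpow_sub hq']
        norm_num
      rw [h2]
      calc sM * ((1 / (q : ℝ)) * ‖∑ b ∈ range q \ B, ph h b * x b‖)
          = (1 / (q : ℝ)) * (sM * ‖∑ b ∈ range q \ B, ph h b * x b‖) := by ring
        _ ≤ (1 / (q : ℝ)) * (c * (q : ℝ) ^ (3 / 4 : ℝ)) :=
            mul_le_mul_of_nonneg_left h1 (by positivity)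
        _ = c * ((q : ℝ) ^ (3 / 4 : ℝ) / q) := by ring
        _ = c * (q : ℝ) ^ (-(1 / 4) : ℝ) := by rw [h3]
        _ ≤ η / 2 := by linarith
    have h1 : sM * ‖v h‖ ≤ sM * ‖U h‖ + η * (sM * ‖v h‖) := by
      have h2 := norm_add_le (U h) ((1 / (q : ℂ)) * ∑ b ∈ range q \ B, ph h b * x b)
      rw [← hsplit] at h2
      have h3 := hlow' h hh
      have h4 : η * (1 / 2) ≤ η * (sM * ‖v h‖) := mul_le_mul_of_nonneg_left h3 hη0
      have h5 := mul_le_mul_of_nonneg_left h2 hsM0.le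
      rw [mul_add] at h5
      linarith
    have h2 : (1 - η) * ‖v h‖ ≤ ‖U h‖ := by
      have h3 : sM * ((1 - η) * ‖v h‖) ≤ sM * ‖U h‖ := by linarith
      exact le_of_mul_le_mul_left h3 hsM0
    have h3 : ((1 - η) * ‖v h‖) ^ 2 ≤ ‖U h‖ ^ 2 :=
      pow_le_pow_left₀ (mul_nonneg (by linarith) (norm_nonneg _)) h2 2
    have h4 : 1 ≤ (1 + 4 * η) * (1 - η) ^ 2 := by
      nlinarith [mul_nonneg hη0 (by linarith : (0 : ℝ) ≤ 2 - 7 * η), pow_nonneg hη0 3]
    calc ‖v h‖ ^ 2 ≤ ((1 + 4 * η) * (1 - η) ^ 2) * ‖v h‖ ^ 2 := by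
          have := sq_nonneg ‖v h‖
          nlinarith
      _ = (1 + 4 * η) * ((1 - η) * ‖v h‖) ^ 2 := by ring
      _ ≤ (1 + 4 * η) * ‖U h‖ ^ 2 := mul_le_mul_of_nonneg_left h3 (by linarith)
  -- Boas and Bellman
  have hR0 : (0 : ℝ) ≤ R := le_trans (Nat.cast_nonneg _) hYR
  have hΛ : 0 ≤ (q : ℝ) + R * (W + c) := by positivity
  have hrow : ∀ w ∈ Y, ∑ w' ∈ Y, ‖∑ b ∈ B, ph w b * (starRingEnd ℂ) (ph w' b)‖ ≤
      (q : ℝ) + R * (W + c) := by
    intro w hw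
    have hterm : ∀ w' ∈ Y, ‖∑ b ∈ B, ph w b * (starRingEnd ℂ) (ph w' b)‖ ≤
        (if w' = w then (q : ℝ) else 0) + (W + c) := by
      intro w' hw'
      have htriv : ∀ s : Finset ℕ, ‖∑ b ∈ s, ph w b * (starRingEnd ℂ) (ph w' b)‖ ≤
          (s.card : ℝ) := by
        intro s
        refine (norm_sum_le _ _).trans ?_
        have h1 : ∀ b ∈ s, ‖ph w b * (starRingEnd ℂ) (ph w' b)‖ ≤ 1 := by
          intro b _
          rw [norm_mul, RCLike.norm_conj, hph, hph, one_mul]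
        refine (Finset.sum_le_sum h1).trans ?_
        rw [Finset.sum_const, nsmul_eq_mul, mul_one]
      by_cases hww : w' = w
      · rw [if_pos hww]
        have h1 := htriv B
        have h2 : (B.card : ℝ) ≤ q := by
          have := Finset.card_le_card hB
          rw [Finset.card_range] at this
          exact_mod_cast this
        linarith
      · rw [if_neg hww, zero_add]
        have h1 : ∑ b ∈ B, ph w b * (starRingEnd ℂ) (ph w' b) =
            ∑ b ∈ range q, ph w b * (starRingEnd ℂ) (ph w' b) -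
              ∑ b ∈ range q \ B, ph w b * (starRingEnd ℂ) (ph w' b) := by
          rw [← Finset.sum_sdiff hB]
          ring
        rw [h1]
        refine (norm_sub_le _ _).trans (add_le_add ?_ ((htriv _).trans hc))
        exact hcross w hw w' hw' (fun h => hww h.symm)
    refine (Finset.sum_le_sum hterm).trans ?_
    rw [Finset.sum_add_distrib, Finset.sum_ite_eq' Y w, if_pos hw, Finset.sum_const,
      nsmul_eq_mul]
    have : (Y.card : ℝ) * (W + c) ≤ R * (W + c) :=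
      mul_le_mul_of_nonneg_right hYR (by positivity)
    linarith
  have hbo := hBO ι Y B x ph ((q : ℝ) + R * (W + c)) hΛ hrow
  have hUsum : ∑ h ∈ Y, ‖U h‖ ^ 2 ≤
      (((q : ℝ) + R * (W + c)) / q) * ((1 / (q : ℝ)) * ∑ b ∈ B, ‖x b‖ ^ 2) := by
    have h1 : ∀ h ∈ Y, ‖U h‖ ^ 2 = (1 / (q : ℝ)) ^ 2 * ‖∑ b ∈ B, x b * ph h b‖ ^ 2 := by
      intro h _
      rw [hU]
      simp only
      rw [norm_mul, mul_pow, norm_div, norm_one, Complex.norm_natCast]
    rw [Finset.sum_congr rfl h1, ← Finset.mul_sum]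
    calc (1 / (q : ℝ)) ^ 2 * ∑ h ∈ Y, ‖∑ b ∈ B, x b * ph h b‖ ^ 2
        ≤ (1 / (q : ℝ)) ^ 2 * (((q : ℝ) + R * (W + c)) * ∑ b ∈ B, ‖x b‖ ^ 2) :=
          mul_le_mul_of_nonneg_left hbo (by positivity)
      _ = (((q : ℝ) + R * (W + c)) / q) * ((1 / (q : ℝ)) * ∑ b ∈ B, ‖x b‖ ^ 2) := by
          field_simp
  calc ∑ h ∈ Y, M * ‖v h‖ ^ 2 ≤ ∑ h ∈ Y, M * ((1 + 4 * η) * ‖U h‖ ^ 2) :=
        Finset.sum_le_sum fun h hh => mul_le_mul_of_nonneg_left (hvU h hh) hM.le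
    _ = M * (1 + 4 * η) * ∑ h ∈ Y, ‖U h‖ ^ 2 := by
        rw [Finset.mul_sum]
        exact Finset.sum_congr rfl fun h _ => by ring
    _ ≤ M * (1 + 4 * η) * ((((q : ℝ) + R * (W + c)) / q) *
          ((1 / (q : ℝ)) * ∑ b ∈ B, ‖x b‖ ^ 2)) :=
        mul_le_mul_of_nonneg_left hUsum (by positivity)
    _ = (1 + 4 * η) * (((q : ℝ) + R * (W + c)) / q) *
        ((1 / (q : ℝ)) * ∑ b ∈ B, M * ‖x b‖ ^ 2) := by
        rw [← Finset.mul_sum]
        ring

/-- the sum over the lines -/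
lemma OI_sum {k : ℕ} [DecidableEq (X k)] (q L : ℕ) (hq : 0 < q) (M κ : ℝ) (Gd : Set (X k))
    [DecidablePred (· ∈ Gd)] (a : X k) (F : X k → ℝ) (hF : F = fun v =>
      max (κ * M * ‖u L v‖ ^ 2 - 1 / 2) 0)
    (hM : 0 < M)
    (hline : ∀ ll ∈ ((HF k q k).filter (fun h => a + h ∈ Gd)).image (fun h => q • h),
      ∃ h₀ ∈ (HF k q k).filter (fun h => a + h ∈ Gd), q • h₀ = ll ∧ ∃ B : Finset ℕ,
        B ⊆ range q ∧ (∀ b ∈ B, ∀ h' ∈ (HF k q k).filter (fun h => a + h ∈ Gd),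
          phi q b (a + h') = phi q b (a + h₀) → q • h' = ll) ∧
        ∑ h ∈ ((HF k q k).filter (fun h => a + h ∈ Gd)).filter (fun h => q • h = ll),
          M * ‖u (q * L) (a + h)‖ ^ 2 ≤
          (1 / (q : ℝ)) * ∑ b ∈ B, κ * M * ‖u L (phi q b (a + h₀))‖ ^ 2) :
    ∑ h ∈ HF k q k, (if a + h ∈ Gd then max (M * ‖u (q * L) (a + h)‖ ^ 2 - 1 / 2) 0 else 0) ≤
      (1 / (q : ℝ)) * ∑ b ∈ range q, ∑ v ∈ (HF k q k).image (fun h => phi q b (a + h)), F v := by
  have hF0 : ∀ v, 0 ≤ F v := by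
    intro v
    rw [hF]
    exact le_max_right _ _
  rw [← Finset.sum_filter]
  set Y := (HF k q k).filter (fun h => a + h ∈ Gd) with hY
  choose! h₀ hh₀ hq₀ B hB hB1 hB2 using hline
  have hper : ∀ ll ∈ Y.image (fun h => q • h),
      ∑ h ∈ Y.filter (fun h => q • h = ll), max (M * ‖u (q * L) (a + h)‖ ^ 2 - 1 / 2) 0 ≤
        (1 / (q : ℝ)) * ∑ b ∈ B ll, F (phi q b (a + h₀ ll)) := by
    intro ll hl0
    refine (pos_sum _ (fun h => M * ‖u (q * L) (a + h)‖ ^ 2)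
      (fun h _ => by positivity)).trans ?_
    set z : ℕ → ℝ := fun b => if b ∈ B ll then κ * M * ‖u L (phi q b (a + h₀ ll))‖ ^ 2 else 0
      with hz
    have h1 : ∑ b ∈ range q, z b = ∑ b ∈ B ll, κ * M * ‖u L (phi q b (a + h₀ ll))‖ ^ 2 := by
      rw [hz, Finset.sum_ite_mem, Finset.inter_eq_right.mpr (hB ll hl0)]
    have h2 : max (∑ h ∈ Y.filter (fun h => q • h = ll), M * ‖u (q * L) (a + h)‖ ^ 2 - 1 / 2) 0 ≤
        max ((1 / (q : ℝ)) * ∑ b ∈ range q, z b - 1 / 2) 0 := by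
      rw [h1]
      refine max_le_max ?_ le_rfl
      linarith [hB2 ll hl0]
    refine h2.trans ((conv_pos q hq z).trans ?_)
    refine mul_le_mul_of_nonneg_left (le_of_eq ?_) (by positivity)
    have h3 : ∀ b ∈ range q, max (z b - 1 / 2) 0 =
        if b ∈ B ll then F (phi q b (a + h₀ ll)) else 0 := by
      intro b _
      by_cases hb : b ∈ B ll
      · rw [hz, hF]
        simp only [if_pos hb]
      · rw [hz]
        simp only [if_neg hb]
        norm_num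
    rw [Finset.sum_congr rfl h3, Finset.sum_ite_mem, Finset.inter_eq_right.mpr (hB ll hl0)]
  have hfib : ∑ h ∈ Y, max (M * ‖u (q * L) (a + h)‖ ^ 2 - 1 / 2) 0 =
      ∑ ll ∈ Y.image (fun h => q • h), ∑ h ∈ Y.filter (fun h => q • h = ll),
        max (M * ‖u (q * L) (a + h)‖ ^ 2 - 1 / 2) 0 :=
    (Finset.sum_fiberwise_of_maps_to (fun h hh => Finset.mem_image_of_mem _ hh) _).symm
  rw [hfib]
  refine (Finset.sum_le_sum hper).trans ?_
  rw [← Finset.mul_sum]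
  refine mul_le_mul_of_nonneg_left ?_ (by positivity)
  have hcomm : ∑ ll ∈ Y.image (fun h => q • h), ∑ b ∈ B ll, F (phi q b (a + h₀ ll)) =
      ∑ b ∈ range q, ∑ ll ∈ (Y.image (fun h => q • h)).filter (fun l => b ∈ B l),
        F (phi q b (a + h₀ ll)) := by
    refine Finset.sum_comm' ?_
    intro l b
    constructor
    · rintro ⟨h1, h2⟩
      exact ⟨Finset.mem_filter.mpr ⟨h1, h2⟩, hB l h1 h2⟩
    · rintro ⟨h1, _⟩
      exact ⟨(Finset.mem_filter.mp h1).1, (Finset.mem_filter.mp h1).2⟩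
  rw [hcomm]
  refine Finset.sum_le_sum fun b _ => ?_
  have hinj : Set.InjOn (fun l => phi q b (a + h₀ l))
      (((Y.image (fun h => q • h)).filter (fun l => b ∈ B l) : Finset (X k)) : Set (X k)) := by
    intro l hl l' hl' hlm
    rw [Finset.mem_coe, Finset.mem_filter] at hl hl'
    have h1 := hB1 l hl.1 b hl.2 (h₀ l') (hh₀ l' hl'.1) hlm.symm
    rw [hq₀ l' hl'.1] at h1
    exact h1.symm
  calc ∑ l ∈ (Y.image (fun h => q • h)).filter (fun l => b ∈ B l), F (phi q b (a + h₀ l))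
      = ∑ v ∈ ((Y.image (fun h => q • h)).filter (fun l => b ∈ B l)).image
          (fun l => phi q b (a + h₀ l)), F v := (Finset.sum_image hinj).symm
    _ ≤ ∑ v ∈ (HF k q k).image (fun h => phi q b (a + h)), F v := by
        refine Finset.sum_le_sum_of_subset_of_nonneg ?_ (fun v _ _ => hF0 v)
        intro v hv
        obtain ⟨l, hl, rfl⟩ := Finset.mem_image.mp hv
        have h1 := hh₀ l (Finset.mem_filter.mp hl).1
        exact Finset.mem_image.mpr ⟨h₀ l, (Finset.mem_filter.mp h1).1, rfl⟩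

lemma mem_H {k q r : ℕ} (x : X k) : x ∈ H k q r ↔ (q ^ r) • x = 0 := by
  rw [H, AddMonoidHom.mem_ker, nsmulAddMonoidHom_apply]

/-- the constants -/
lemma consts (k q : ℕ) (hk : 3 ≤ k) (hq : (8 * k) ^ (8 * k) ≤ q) (R C₀ : ℝ) (hC₀ : 0 ≤ C₀)
    (hR : 1 ≤ R) (hRq : R ≤ (q : ℝ) ^ (1 / (8 * (k : ℝ)))) :
    0 < (q : ℝ) ^ (-(1 / (8 * (k : ℝ)))) ∧ 8 * (k : ℝ) * (q : ℝ) ^ (-(1 / (8 * (k : ℝ)))) ≤ 1 ∧
    2 * (k * R) * (q : ℝ) ^ (-(1 / 4) : ℝ) ≤ 2 * k * (q : ℝ) ^ (-(1 / (8 * (k : ℝ)))) ∧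
    ((q : ℝ) + R * (C₀ * (q : ℝ) ^ (1 - 1 / (2 * (k : ℝ))) + k * R)) / q ≤
      1 + (C₀ + k) * (q : ℝ) ^ (-(1 / (8 * (k : ℝ)))) := by
  have hk0 : (0 : ℝ) < k := by
    have : 0 < k := by omega
    exact_mod_cast this
  have hk1 : (3 : ℝ) ≤ k := by exact_mod_cast hk
  have h8k : 0 < 8 * k := by omega
  have hpos : 0 < (8 * k) ^ (8 * k) := pow_pos h8k _
  have hq1 : 1 ≤ q := le_trans hpos hq
  have hq1' : (1 : ℝ) ≤ q := by exact_mod_cast hq1
  have hq' : (0 : ℝ) < q := by linarith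
  have hqR : ((8 * (k : ℝ)) ^ (8 * k) : ℝ) ≤ q := by exact_mod_cast hq
  have hinv : 1 / (8 * (k : ℝ)) ≤ 1 / 24 := by
    apply one_div_le_one_div_of_le <;> linarith
  refine ⟨Real.rpow_pos_of_pos hq' _, ?_, ?_, ?_⟩
  · have h1 : (q : ℝ) ^ (-(1 / (8 * (k : ℝ)))) ≤
        ((8 * (k : ℝ)) ^ (8 * k) : ℝ) ^ (-(1 / (8 * (k : ℝ)))) :=
      Real.rpow_le_rpow_of_nonpos (by positivity) hqR (by
        have : 0 < 1 / (8 * (k : ℝ)) := by positivity
        linarith)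
    have h2 : ((8 * (k : ℝ)) ^ (8 * k) : ℝ) ^ (-(1 / (8 * (k : ℝ)))) = (8 * (k : ℝ))⁻¹ := by
      rw [← Real.rpow_natCast (8 * (k : ℝ)) (8 * k), ← Real.rpow_mul (by positivity)]
      have h3 : (((8 * k : ℕ) : ℝ)) * (-(1 / (8 * (k : ℝ)))) = -1 := by
        push_cast
        field_simp
      rw [h3, Real.rpow_neg_one]
    rw [h2] at h1
    calc 8 * (k : ℝ) * (q : ℝ) ^ (-(1 / (8 * (k : ℝ)))) ≤ 8 * (k : ℝ) * (8 * (k : ℝ))⁻¹ :=
          mul_le_mul_of_nonneg_left h1 (by positivity)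
      _ = 1 := by field_simp
  · have h1 : R * (q : ℝ) ^ (-(1 / 4) : ℝ) ≤ (q : ℝ) ^ (-(1 / (8 * (k : ℝ)))) := by
      calc R * (q : ℝ) ^ (-(1 / 4) : ℝ) ≤
            (q : ℝ) ^ (1 / (8 * (k : ℝ))) * (q : ℝ) ^ (-(1 / 4) : ℝ) :=
            mul_le_mul_of_nonneg_right hRq (by positivity)
        _ = (q : ℝ) ^ (1 / (8 * (k : ℝ)) + -(1 / 4) : ℝ) := (Real.rpow_add hq' _ _).symm
        _ ≤ (q : ℝ) ^ (-(1 / (8 * (k : ℝ)))) :=
            Real.rpow_le_rpow_of_exponent_le hq1' (by linarith)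
    calc 2 * (k * R) * (q : ℝ) ^ (-(1 / 4) : ℝ) = 2 * k * (R * (q : ℝ) ^ (-(1 / 4) : ℝ)) := by
          ring
      _ ≤ 2 * k * (q : ℝ) ^ (-(1 / (8 * (k : ℝ)))) :=
          mul_le_mul_of_nonneg_left h1 (by positivity)
  · have h1 : R * (C₀ * (q : ℝ) ^ (1 - 1 / (2 * (k : ℝ)))) ≤
        C₀ * (q : ℝ) ^ (-(1 / (8 * (k : ℝ)))) * q := by
      calc R * (C₀ * (q : ℝ) ^ (1 - 1 / (2 * (k : ℝ)))) ≤
            (q : ℝ) ^ (1 / (8 * (k : ℝ))) * (C₀ * (q : ℝ) ^ (1 - 1 / (2 * (k : ℝ)))) :=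
            mul_le_mul_of_nonneg_right hRq (by positivity)
        _ = C₀ * ((q : ℝ) ^ (1 / (8 * (k : ℝ))) * (q : ℝ) ^ (1 - 1 / (2 * (k : ℝ)))) := by ring
        _ = C₀ * (q : ℝ) ^ (1 / (8 * (k : ℝ)) + (1 - 1 / (2 * (k : ℝ)))) := by
            rw [Real.rpow_add hq']
        _ ≤ C₀ * (q : ℝ) ^ (-(1 / (8 * (k : ℝ))) + 1) := by
            refine mul_le_mul_of_nonneg_left (Real.rpow_le_rpow_of_exponent_le hq1' ?_) hC₀
            have h2 : 1 / (2 * (k : ℝ)) = 4 * (1 / (8 * (k : ℝ))) := by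
              field_simp
              norm_num
            have h3 : 0 < 1 / (8 * (k : ℝ)) := by positivity
            linarith
        _ = C₀ * (q : ℝ) ^ (-(1 / (8 * (k : ℝ)))) * q := by
            rw [Real.rpow_add hq', Real.rpow_one]
            ring
    have h2 : R * (k * R) ≤ k * (q : ℝ) ^ (-(1 / (8 * (k : ℝ)))) * q := by
      calc R * (k * R) = k * (R * R) := by ring
        _ ≤ k * ((q : ℝ) ^ (1 / (8 * (k : ℝ))) * (q : ℝ) ^ (1 / (8 * (k : ℝ)))) := by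
            refine mul_le_mul_of_nonneg_left ?_ hk0.le
            exact mul_le_mul hRq hRq (by linarith) (by positivity)
        _ = k * (q : ℝ) ^ (1 / (8 * (k : ℝ)) + 1 / (8 * (k : ℝ))) := by
            rw [Real.rpow_add hq']
        _ ≤ k * (q : ℝ) ^ (-(1 / (8 * (k : ℝ))) + 1) := by
            refine mul_le_mul_of_nonneg_left (Real.rpow_le_rpow_of_exponent_le hq1' ?_) hk0.le
            linarith
        _ = k * (q : ℝ) ^ (-(1 / (8 * (k : ℝ)))) * q := by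
            rw [Real.rpow_add hq', Real.rpow_one]
            ring
    rw [div_le_iff₀ hq']
    nlinarith

theorem pf_OI (hEX : T_EX) (hPF : T_PF) (hTO : T_TO) (hSH : T_SH) (hWE : T_WE) (hBO : T_BO)
    (_hMP : T_MP) : T_OI := by
  classical
  obtain ⟨he1, -, -, -, -, -, he7, -, -⟩ := hEX
  have he2 : ∀ x y : UnitAddCircle, e (x + y) = e x * e y := by
    intro x y
    simp [e, AddCircle.toCircle_add]
  obtain ⟨-, hpf⟩ := hPF
  intro k hk
  obtain ⟨C₀, hC₀, hwe⟩ := hWE k (by omega)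
  refine ⟨8 * k + (C₀ + k) + 8 * k * (C₀ + k), (8 * k) ^ (8 * k), by positivity, ?_⟩
  intro q L M R Gd hq0 hqp hL hM hR hRq hlow hup hCnt a
  have hkq : k < q := by
    have h1 : 8 * k ≤ (8 * k) ^ (8 * k) := Nat.le_self_pow (by omega) _
    omega
  have hq : 0 < q := hqp.pos
  have hq' : (0 : ℝ) < q := by exact_mod_cast hq
  have hk0 : (0 : ℝ) < k := by
    have : 0 < k := by omega
    exact_mod_cast this
  obtain ⟨hd0, hd1, hη, hΛ⟩ := consts k q hk hq0 R C₀ hC₀ hR hRq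
  obtain ⟨hT1, hT2, -, -, -, hT6⟩ := hTO k q hq
  set d : ℝ := (q : ℝ) ^ (-(1 / (8 * (k : ℝ)))) with hd
  refine OI_sum q L hq M (1 + (8 * k + (C₀ + k) + 8 * k * (C₀ + k)) * d) Gd a _ rfl hM ?_
  set Y := (HF k q k).filter (fun h => a + h ∈ Gd) with hY
  have hYmem : ∀ h, h ∈ Y ↔ h ∈ H k q k ∧ a + h ∈ Gd := by
    intro h
    rw [hY, Finset.mem_filter, hT2 k h]
  have hYcard : (Y.card : ℝ) ≤ R := by
    have h1 := hCnt (Y.image (fun h => a + h)) (by
      intro y hy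
      obtain ⟨h, hh, rfl⟩ := Finset.mem_image.mp hy
      exact ((hYmem h).mp hh).2) (by
      intro y hy y' hy'
      obtain ⟨h, hh, rfl⟩ := Finset.mem_image.mp hy
      obtain ⟨h', hh', rfl⟩ := Finset.mem_image.mp hy'
      have h2 : a + h - (a + h') = h - h' := by abel
      rw [h2]
      exact AddSubgroup.sub_mem _ ((hYmem h).mp hh).1 ((hYmem h').mp hh').1)
    rwa [Finset.card_image_of_injective _ (add_right_injective a)] at h1
  intro ll hll
  obtain ⟨h₀, hh₀, hq₀⟩ := Finset.mem_image.mp hll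
  refine ⟨h₀, hh₀, hq₀, (range q).filter (fun b => ∀ h' ∈ Y,
    phi q b (a + h') = phi q b (a + h₀) → q • h' = ll), Finset.filter_subset _ _, ?_, ?_⟩
  · intro b hb
    exact (Finset.mem_filter.mp hb).2
  set B := (range q).filter (fun b => ∀ h' ∈ Y,
    phi q b (a + h') = phi q b (a + h₀) → q • h' = ll) with hB
  have hline1 : ∀ h ∈ Y.filter (fun h => q • h = ll), ∀ h' ∈ Y.filter (fun h => q • h = ll),
      h - h' ∈ H k q 1 := by
    intro h hh h' hh'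
    rw [mem_H, pow_one, smul_sub, (Finset.mem_filter.mp hh).2, (Finset.mem_filter.mp hh').2,
      sub_self]
  have hh₀' : h₀ ∈ Y.filter (fun h => q • h = ll) := Finset.mem_filter.mpr ⟨hh₀, hq₀⟩
  have hcard : ((range q \ B).card : ℝ) ≤ k * R := by
    have hsub : range q \ B ⊆ (Y.filter (fun h => q • h ≠ ll)).biUnion (fun h' =>
        (range q).filter (fun b => phi q b (h' - h₀) = 0)) := by
      intro b hb
      obtain ⟨hb1, hb2⟩ := Finset.mem_sdiff.mp hb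
      have hb3 : ¬ ∀ h' ∈ Y, phi q b (a + h') = phi q b (a + h₀) → q • h' = ll := by
        intro hcon
        exact hb2 (Finset.mem_filter.mpr ⟨hb1, hcon⟩)
      push Not at hb3
      obtain ⟨h', hh', he, hne⟩ := hb3
      refine Finset.mem_biUnion.mpr ⟨h', Finset.mem_filter.mpr ⟨hh', hne⟩,
        Finset.mem_filter.mpr ⟨hb1, ?_⟩⟩
      have h2 : h' - h₀ = (a + h') - (a + h₀) := by abel
      rw [h2, map_sub, he, sub_self]
    have hc1 : ∀ h' ∈ Y.filter (fun h => q • h ≠ ll),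
        ((range q).filter (fun b => phi q b (h' - h₀) = 0)).card ≤ k - 1 := by
      intro h' hh'
      obtain ⟨hh1, hh2⟩ := Finset.mem_filter.mp hh'
      refine hSH k q hqp hkq (h' - h₀)
        (AddSubgroup.sub_mem _ ((hYmem h').mp hh1).1 ((hYmem h₀).mp hh₀).1) ?_ _ ?_
      · intro hcon
        rw [mem_H, pow_one, smul_sub, hq₀, sub_eq_zero] at hcon
        exact hh2 hcon
      · intro b hb
        obtain ⟨hb1, hb2⟩ := Finset.mem_filter.mp hb
        exact ⟨Finset.mem_range.mp hb1, hb2⟩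
    have hc2 : (range q \ B).card ≤ Y.card * (k - 1) := by
      refine (Finset.card_le_card hsub).trans ?_
      refine (Finset.card_biUnion_le_card_mul _ _ _ hc1).trans ?_
      exact Nat.mul_le_mul_right _ (Finset.card_le_card (Finset.filter_subset _ _))
    have hc3 : ((range q \ B).card : ℝ) ≤ (Y.card : ℝ) * ((k - 1 : ℕ) : ℝ) := by
      exact_mod_cast hc2
    have hc4 : ((k - 1 : ℕ) : ℝ) ≤ k := by
      have : k - 1 ≤ k := Nat.sub_le _ _
      exact_mod_cast this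
    calc ((range q \ B).card : ℝ) ≤ (Y.card : ℝ) * ((k - 1 : ℕ) : ℝ) := hc3
      _ ≤ R * k := mul_le_mul hYcard hc4 (Nat.cast_nonneg _) (by linarith)
      _ = k * R := mul_comm _ _
  have hcore := line_core hBO q hq M R (C₀ * (q : ℝ) ^ (1 - 1 / (2 * (k : ℝ)))) (k * R)
    (2 * k * d) hM (by positivity) (by positivity) (by positivity) (by linarith)
    (Y.filter (fun h => q • h = ll)) B (Finset.filter_subset _ _) hcard
    (le_trans (by exact_mod_cast Finset.card_le_card (Finset.filter_subset _ _)) hYcard)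
    (fun b => u L (phi q b (a + h₀))) (fun h b => e (P (a + h) b)) (fun h b => he1 _)
    (fun h => u (q * L) (a + h)) ?_ ?_ ?_ ?_ hη
  · refine hcore.trans ?_
    rw [← Finset.mul_sum, ← Finset.mul_sum]
    have hs0 : 0 ≤ ∑ b ∈ B, ‖u L (phi q b (a + h₀))‖ ^ 2 :=
      Finset.sum_nonneg fun b _ => by positivity
    have hfac : (1 + 4 * (2 * k * d)) *
        (((q : ℝ) + R * (C₀ * (q : ℝ) ^ (1 - 1 / (2 * (k : ℝ))) + k * R)) / q) ≤
        1 + (8 * k + (C₀ + k) + 8 * k * (C₀ + k)) * d := by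
      have hd2 : d ≤ 1 := by
        have hk1 : (3 : ℝ) ≤ k := by exact_mod_cast hk
        have h3 : 1 * d ≤ 8 * k * d := mul_le_mul_of_nonneg_right (by linarith) hd0.le
        linarith
      calc (1 + 4 * (2 * k * d)) *
            (((q : ℝ) + R * (C₀ * (q : ℝ) ^ (1 - 1 / (2 * (k : ℝ))) + k * R)) / q) ≤
            (1 + 4 * (2 * k * d)) * (1 + (C₀ + k) * d) :=
            mul_le_mul_of_nonneg_left hΛ (by positivity)
        _ = 1 + (8 * k + (C₀ + k)) * d + 8 * k * (C₀ + k) * (d * d) := by ring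
        _ ≤ 1 + (8 * k + (C₀ + k)) * d + 8 * k * (C₀ + k) * (d * 1) := by
            have : 8 * k * (C₀ + k) * (d * d) ≤ 8 * k * (C₀ + k) * (d * 1) :=
              mul_le_mul_of_nonneg_left (mul_le_mul_of_nonneg_left hd2 hd0.le) (by positivity)
            linarith
        _ = 1 + (8 * k + (C₀ + k) + 8 * k * (C₀ + k)) * d := by ring
    calc (1 + 4 * (2 * k * d)) *
          (((q : ℝ) + R * (C₀ * (q : ℝ) ^ (1 - 1 / (2 * (k : ℝ))) + k * R)) / q) *
          ((1 / (q : ℝ)) * (M * ∑ b ∈ B, ‖u L (phi q b (a + h₀))‖ ^ 2)) ≤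
          (1 + (8 * k + (C₀ + k) + 8 * k * (C₀ + k)) * d) *
          ((1 / (q : ℝ)) * (M * ∑ b ∈ B, ‖u L (phi q b (a + h₀))‖ ^ 2)) :=
          mul_le_mul_of_nonneg_right hfac (by positivity)
      _ = (1 / (q : ℝ)) * ((1 + (8 * k + (C₀ + k) + 8 * k * (C₀ + k)) * d) * M *
          ∑ b ∈ B, ‖u L (phi q b (a + h₀))‖ ^ 2) := by ring
  · intro h hh
    rw [hpf k q L hq hL (a + h)]
    congr 1
    refine Finset.sum_congr rfl fun b _ => ?_
    congr 2
    have h1 : a + h = (h - h₀) + (a + h₀) := by abel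
    rw [h1, map_add, hT6 b (h - h₀) (hline1 h hh h₀ hh₀'), zero_add]
  · intro b hb
    exact hup (a + h₀) ((hYmem h₀).mp hh₀).2 b hb
  · intro h hh
    exact hlow (a + h) ((hYmem h).mp (Finset.mem_filter.mp hh).1).2
  · intro h hh h' hh' hne
    have h1 : ∀ b, e (P (a + h) b) * (starRingEnd ℂ) (e (P (a + h') b)) = e (P (h - h') b) := by
      intro b
      have h2 : a + h = (h - h') + (a + h') := by abel
      rw [h2, he7, he2, mul_assoc, Complex.mul_conj, Complex.normSq_eq_norm_sq, he1]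
      norm_num
    simp only [h1]
    exact hwe q hqp hkq (h - h') (hline1 h hh h' hh') (sub_ne_zero.mpr hne)

end Pool.Agent.H74.CLV
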